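import Mathlib
import Pool.Agent.Work.MP_787500_nt.HP.BKDefs

/-!
Exact dimensions of Bloch-Kato Selmer groups of conjugate self-dual representations: definitions used in the statement
of the theorem. The other definitions are in `PA/ParityDefs.lean`, `GP/FinDefs.lean`, `HP/BKDefs.lean`, `LA/FDefs.lean`.
-/

set_option autoImplicit false

namespace Pool.Agent.Work.MP_787500_nt.Parity

variable {G : Type*} [Group G] [TopologicalSpace G] {E : Type*} [NormedField E] {n : ℕ}

/-- No open subgroup of index 2 of `G` contains `I` and `D`. (If `G` is the absolute Galois group of a number field `K`, `I` the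
union of the inertia groups of the primes not above 2 and `D` a decomposition group over a prime `v` above 2: `v` splits in no
quadratic extension of `K` that is unramified at the finite primes not above 2.) -/
def NoSplit (I : Set G) (D : Subgroup G) : Prop :=
  ∀ U : Subgroup G, IsOpen (U : Set G) → U.index = 2 → (∀ σ ∈ I, σ ∈ U) → ¬ D ≤ U

/-- For every space `L` of continuous cocycles of `D` that contains the coboundaries: `L` and the Selmer space are
finite dimensional, the Selmer space contains the coboundaries of `G`, and if `l` and `s` are the dimensions of `L` and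
of the Selmer space modulo coboundaries and `h` is the dimension of the space of vectors fixed by `G`, then `l - s` is
even and not negative and `l + s ≤ n + 2 * h`. (So if `n = 2` and `h = 0` then `s = 1` if `l = 1`, and `s = 0` if `l` is 0
or 2.) -/
def ExactBK (N : Set (Subgroup G)) (χ : G → E) (κ : G → G) (ρ : G →* Matrix (Fin n) (Fin n) E)
    (b : Matrix (Fin n) (Fin n) E) (D : Subgroup G) : Prop :=
  ∀ L : Submodule E (D → Fin n → E),
    Between (coboundaries (fun σ : D => ρ σ)) L (cocycles (fun σ : D => ρ σ)) →
    FiniteDimensional E L ∧ FiniteDimensional E (selmerBK N χ κ ρ b D L) ∧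
    coboundaries ρ ≤ selmerBK N χ κ ρ b D L ∧
    (∃ k : ℕ, dimModulo L (coboundaries (fun σ : D => ρ σ)) =
      dimModulo (selmerBK N χ κ ρ b D L) (coboundaries ρ) + 2 * k) ∧
    dimModulo L (coboundaries (fun σ : D => ρ σ)) +
        dimModulo (selmerBK N χ κ ρ b D L) (coboundaries ρ) ≤
      n + 2 * Module.finrank E (fixedBy (fun σ : G => ρ σ))

end Pool.Agent.Work.MP_787500_nt.Parity
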