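import Mathlib
import Pool.Agent.Work.MP_787500_nt.GP.U_Glob
import Pool.Agent.Work.MP_787500_nt.HP.DecB
import Pool.Agent.Work.MP_787500_nt.LA.FDefs
import Pool.Agent.Work.MP_787500_nt.XS.FDefs

/-!
# Cocycles that are coboundaries at one prime above 2

`NoSplit (inT K ∅) (stabD P)`: the prime `P` splits in no quadratic extension unramified outside 2. Then the decomposition group
of `P` maps onto every finite 2-group quotient of the absolute Galois group that is unramified outside 2, and a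
continuous cocycle of a pro-2 representation, unramified outside 2, is a coboundary if it is one on the decomposition
group.
-/

set_option autoImplicit false
set_option linter.unusedSectionVars false

namespace Pool.Agent.Work.MP_787500_nt.XS

open IsDedekindDomain NumberField Matrix
open Pool.Agent.Work.MP_787500_nt.GP (inT stabD)
open Pool.Agent.Work.MP_787500_nt.Parity (NoSplit)

universe u

section group

variable {G : Type*} [Group G]

/-- A subgroup that is contained in no subgroup of index 2 containing `W` generates `G` together with `W`. -/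
theorem mul_of_index {W : Subgroup G} [W.Normal] (hfin : Finite (G ⧸ W))
    (hpow : ∀ g : G, ∃ k : ℕ, g ^ 2 ^ k ∈ W) {D : Subgroup G}
    (h : ∀ U : Subgroup G, U.index = 2 → W ≤ U → ¬ D ≤ U) (g : G) : ∃ d ∈ D, d⁻¹ * g ∈ W := by
  have : Fact (Nat.Prime 2) := ⟨Nat.prime_two⟩
  have hP : IsPGroup 2 (G ⧸ W) := by
    intro x
    obtain ⟨g, rfl⟩ := QuotientGroup.mk_surjective x
    obtain ⟨k, hk⟩ := hpow g
    exact ⟨k, by rw [← QuotientGroup.mk_pow, QuotientGroup.eq_one_iff]; exact hk⟩
  obtain ⟨m, hm⟩ := IsPGroup.iff_card.1 hP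
  let π := QuotientGroup.mk' W
  let D' := D.map π
  obtain ⟨n, hnm, hn⟩ := (Nat.dvd_prime_pow Nat.prime_two).1 (hm ▸ Subgroup.card_subgroup_dvd_card D')
  have hDtop : D' = ⊤ := by
    by_contra hD
    have hlt : n < m := by
      rcases lt_or_eq_of_le hnm with h | h
      · exact h
      · exfalso
        apply hD
        rw [← Subgroup.card_eq_iff_eq_top, hn, hm, h]
    obtain ⟨U, hU, hDU⟩ := Sylow.exists_subgroup_card_pow_prime_le (p := 2) (n := n) (m := m - 1)
      (by rw [hm]; exact pow_dvd_pow 2 (by omega)) D' hn (by omega)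
    have hidx : U.index = 2 := by
      have h3 := U.card_mul_index
      rw [hm, hU] at h3
      have h4 : 2 ^ m = 2 ^ (m - 1) * 2 := by rw [← pow_succ]; congr 1; omega
      rw [h4] at h3
      exact Nat.eq_of_mul_eq_mul_left (pow_pos Nat.two_pos _) h3
    refine h (U.comap π) ?_ ?_ ?_
    · rw [Subgroup.index_comap_of_surjective _ (QuotientGroup.mk'_surjective W)]
      exact hidx
    · intro w hw
      have h5 : π w = 1 := (QuotientGroup.eq_one_iff w).2 hw
      rw [Subgroup.mem_comap, h5]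
      exact U.one_mem
    · intro d hd
      exact hDU ⟨d, hd, rfl⟩
  have hg : π g ∈ D' := by rw [hDtop]; trivial
  obtain ⟨δ, hδ, hδg⟩ := hg
  exact ⟨δ, hδ, QuotientGroup.eq.1 hδg⟩

end group

variable {K : Type u} [Field K] [NumberField K]
variable {E : Type*} [NormedField E] [NormedAlgebra ℚ_[2] E] [FiniteDimensional ℚ_[2] E] {n : ℕ}
  {P : Ideal (𝓞 (AlgebraicClosure K))}

theorem gen_D (hF : NoSplit (inT K ∅) (stabD P)) :
    GP.Bd.Gen 2 (inT K ∅) (stabD (K := K) P)
      (fun j : Empty => (j.elim : Subgroup (AbsGal K))) := by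
  intro W hWn hWo hWp hI _ g
  have hfin : Finite (AbsGal K ⧸ W) := Subgroup.quotient_finite_of_isOpen W hWo
  exact mul_of_index hfin hWp (fun U hU hWU => hF U (Subgroup.isOpen_mono hWU hWo) hU
    (fun σ hσ => hWU (hI σ hσ))) g

/-- the condition holds in the fields of prime discriminant 7 modulo 16 -/
theorem noSplit_of {D : ℕ} {s : K} (hK : Module.finrank ℚ K = 2) (hs : s ^ 2 = -(D : K))
    (hD : D.Prime) (hD16 : D % 16 = 7) (hP : P.IsPrime)
    (hP2 : (2 : 𝓞 (AlgebraicClosure K)) ∈ P) : NoSplit (inT K ∅) (stabD P) := by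
  intro U hUo hU2 hI hDU
  obtain ⟨v, ι, hv, hdec⟩ := HP.exists_dec hP Nat.prime_two (by exact_mod_cast hP2)
  have hv' : (2 : 𝓞 K) ∈ v.asIdeal := by exact_mod_cast hv
  have hn : U.Normal := Subgroup.normal_of_index_eq_two hU2
  have h2 : ∀ g : AbsGal K, g ^ 2 ^ 1 ∈ U := fun g => by
    rw [pow_one]
    exact Subgroup.sq_mem_of_index_two hU2 g
  have hF : PropP K := Quad.propP hK hs hD hD16
  have htop : U = ⊤ := by
    rw [eq_top_iff]
    intro g _
    obtain ⟨d, hd, h1⟩ := decomp_surj hF hv' ι U hUo (fun g => ⟨1, h2 g⟩) (fun Q hQ hQ2 σ hσ =>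
      hI σ ⟨Q, hQ, hQ2, fun l hl => absurd hl (Finset.notMem_empty l), hσ⟩) g
    have hd' : d ∈ U := hDU (by rw [← hdec]; exact hd)
    have h3 := U.mul_mem hd' h1
    rwa [mul_inv_cancel_left] at h3
  rw [htop, Subgroup.index_top] at hU2
  exact absurd hU2 (by norm_num)

theorem cob_of_stab (hF : NoSplit (inT K ∅) (stabD P))
    {ρ : AbsGal K →* Matrix (Fin n) (Fin n) E} (hcont : Continuous ρ)
    (hpro : ∀ g, Filter.Tendsto (fun k : ℕ => ρ (g ^ 2 ^ k)) Filter.atTop (nhds 1))
    (hI : ∀ σ ∈ inT K ∅, ρ σ = 1) {x : AbsGal K → Fin n → E} (hx : Parity.IsCocycle ρ x)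
    (hxI : ∀ σ ∈ inT K ∅, x σ = 0) {y : Fin n → E}
    (hxD : ∀ d ∈ stabD P, x d = ρ d *ᵥ y - y) (g : AbsGal K) : x g = ρ g *ᵥ y - y :=
  GP.Bd.cob_of_decomp (p := 2) (C := fun j : Empty => (j.elim : Subgroup (AbsGal K)))
    (gen_D hF) (fun j => j.elim) hcont hpro hI (fun j => j.elim)
    (fun j => j.elim) (fun j => j.elim) (fun j => j.elim) hx hxI (fun j => j.elim) hxD g

end Pool.Agent.Work.MP_787500_nt.XS
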