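import Mathlib
import Pool.Agent.Work.MP_787500_nt.OU.EulV
import Pool.Agent.Work.MP_787500_nt.OV.LocV
import Pool.Agent.Work.MP_787500_nt.KR.LDefs2

/-!
# The dimension of the annihilator of a local condition, place of degree 1 above 2

`finrank_perpSub`: for every space `L` of continuous cocycles that contains the coboundaries,
`finrank L + finrank (perpSub L) = 3 * n`.
-/

set_option autoImplicit false
set_option linter.unusedSectionVars false

namespace Pool.Agent.Work.MP_787500_nt.XS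

open Matrix
open Pool.Agent.Work.MP_787500_nt.GP (A0 IsAct d0 d1 d2 tw cup11 cup21 cup12 cup01 cup02 EvPow IsPow OE MN
  actN actQ bN bil mq lft mq_lft mq_eq mq_add mq_smul Wq Lat pr0 lamN mem_OE bil_add_left bil_add_right bil_sub_left
  bil_sub_right bil_smul_left bil_smul_right pr0_zero_of_norm actQ_mq)
open Pool.Agent.Work.MP_787500_nt.KR (FSys Sm1 Sm2 IsChar Smooth Z1 Z2 B2 LocH LocD Pair LDual LocRep ZV PerpV zV
  perpSub)
open Pool.Agent.Work.MP_787500_nt.EU (invD)
open Pool.Agent.Work.MP_787500_nt.PA (toE)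
open Pool.Agent.Work.MP_787500_nt.OP (stdL mem_stdL KE mem_KE)
open Pool.Agent.Work.MP_787500_nt.OT (ordW mem_ordW)
open Pool.Agent.Work.MP_787500_nt.OU (EulF perp_count card_invD)

universe v

variable {E : Type v} [NormedField E] [NormedAlgebra ℚ_[2] E] [FiniteDimensional ℚ_[2] E] {n : ℕ}
  {P : Type*} [Group P] {TP : FSys P} {χ : P → ℤ_[2]} {iv : (P → P → A0) → A0}
  {b : Matrix (Fin n) (Fin n) E} {l : OE E} {t : E →ₗ[ℚ_[2]] ℚ_[2]}
  {T : Submodule (OE E) (Fin n → E)} {σ σ' : P → Matrix (Fin n) (Fin n) E}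

private theorem card_MN1 [IsLocalRing (OE E)] (hl : Lat b l t T) :
    Nat.card (MN T l 1) = Nat.card (IsLocalRing.ResidueField (OE E)) ^ n := by
  have h1 := GP.card_lamN (D := Unit) hl 1 (⊤ : Submodule E (Unit → Fin n → E))
    (fun X _ => ⟨‖X ()‖, fun d => le_rfl⟩)
  have h2 : lamN (D := Unit) T l 1 (⊤ : Submodule E (Unit → Fin n → E)) = ⊤ := by
    rw [eq_top_iff]
    intro x _
    exact ⟨fun d => lft (x d : Wq T), trivial, fun d => (mq_lft _).symm⟩
  rw [h2] at h1
  have h3 : Nat.card (⊤ : Submodule (OE E) (Unit → MN T l 1)) = Nat.card (MN T l 1) := by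
    rw [Nat.card_congr (Submodule.topEquiv (R := OE E) (M := Unit → MN T l 1)).toEquiv]
    exact Nat.card_congr (Equiv.funUnique Unit _)
  have h4 : Module.finrank E (⊤ : Submodule E (Unit → Fin n → E)) = n := by
    rw [finrank_top, Module.finrank_pi_fintype]
    simp
  rw [h4, one_mul] at h1
  rw [← h3, h1]

private theorem two_MN1 (hl : Lat b l t T) (m : MN T l 1) : m + m = 0 := by
  have hn2 : ‖(2 : E)‖ < 1 := by
    have h1 : (2 : E) = algebraMap ℚ_[2] E 2 := (map_ofNat (algebraMap ℚ_[2] E) 2).symm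
    rw [h1, norm_algebraMap']
    have h3 := Padic.norm_p_lt_one (p := 2)
    exact_mod_cast h3
  have h1 := hl.lmax _ hn2
  have h2 : ‖(2 : E) / (l : E)‖ ≤ 1 := by
    rw [norm_div]
    exact div_le_one_of_le₀ h1 (norm_nonneg _)
  let a : OE E := ⟨(2 : E) / (l : E), h2⟩
  have h3 : (2 : OE E) = a * l ^ 1 := by
    apply Subtype.ext
    show (2 : E) = (2 : E) / (l : E) * ((l ^ 1 : OE E) : E)
    rw [pow_one, div_mul_cancel₀ _ hl.lne]
  have h4 : m + m = (2 : OE E) • m := by
    rw [two_smul]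
  rw [h4, h3, mul_smul]
  have h5 : l ^ 1 • m = 0 := Subtype.ext m.mem
  rw [h5, smul_zero]

theorem finrank_perpSub [IsLocalRing (OE E)] (H : LocD.{v} TP χ iv) (hE : EulF.{v} TP)
    (hl : Lat b l t T) (hr : LocRep TP χ T b σ σ') {L : Submodule E (P → Fin n → E)}
    (hL : ∀ X ∈ L, ZV TP σ X) (hL0 : ∀ v, (fun d => σ d *ᵥ v - v) ∈ L) :
    Module.finrank E L + Module.finrank E (perpSub TP χ b σ' L) = 3 * n := by
  have hp := KR.pair_MN hl hr 1
  have hfinM : Finite (MN T l 1) := GP.MN_finite hl 1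
  have hs : LocRep TP χ T b σ' σ := OP.rep_swap hl.symm hr
  have hA0 : ∀ m, d0 (actN l 1 σ hr.st) m ∈ lamN T l 1 L := by
    intro m
    refine ⟨fun g => σ g *ᵥ lft (m : Wq T) - lft (m : Wq T), hL0 _, fun g => ?_⟩
    show actQ T (σ g) (m : Wq T) - (m : Wq T) = _
    rw [GP.mq_sub, mq_lft, ← actQ_mq (hr.st g), mq_lft]
  have hA : ∀ x ∈ lamN T l 1 L, Z1 TP (actN l 1 σ hr.st) x := by
    rintro x ⟨X, hX, h1⟩
    exact KR.zv_level hl hr 1 (hL X hX) h1
  have hA' : ∀ y, y ∈ lamN T l 1 (perpSub TP χ b σ' L) ↔ Z1 TP (actN l 1 σ' hr.st') y ∧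
      ∀ x ∈ lamN T l 1 L, iv (cup11 (actN l 1 σ' hr.st') (bN hl 1) x y) = 0 := by
    intro y
    exact (KR.perp_iff H hl hr (L := L) hL hL0 y).symm
  have hcnt := perp_count H.toLocH hp (H.ld hp) hA0 hA hA'
  have h2 : ∀ m' : MN T l 1, m' + m' = 0 := two_MN1 hl
  have hE' := hE hp.act' hp.sm' h2
  have hinv := card_invD (fun g => H.char.odd g) hp h2
  have hF : 0 < Nat.card {m : MN T l 1 // ∀ g, actN l 1 σ hr.st g m = m} := by
    have h3 : Nonempty {m : MN T l 1 // ∀ g, actN l 1 σ hr.st g m = m} :=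
      ⟨⟨0, fun g => hp.act.zero g⟩⟩
    exact Nat.card_pos
  have hfd : FiniteDimensional E (zV TP σ) := KR.zV_fd H.gens hr.one hr.mul
  have hfd' : FiniteDimensional E (zV TP σ') := KR.zV_fd H.gens hr.one' hr.mul'
  have hfL : FiniteDimensional E L := Submodule.finiteDimensional_of_le (S₂ := zV TP σ) (fun X hX => hL X hX)
  have hfP : FiniteDimensional E (perpSub TP χ b σ' L) :=
    Submodule.finiteDimensional_of_le (S₂ := zV TP σ') (fun X hX => hX.1)
  have hcA := GP.card_lamN hl 1 L (fun X hX => KR.zv_bdd (hL X hX))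
  have hcA' := GP.card_lamN hl 1 (perpSub TP χ b σ' L) (fun X hX => KR.zv_bdd hX.1)
  have hcM := card_MN1 (b := b) (t := t) hl
  rw [hE', hinv, hcA, hcA', hcM, one_mul, one_mul] at hcnt
  have hq : 1 < Nat.card (IsLocalRing.ResidueField (OE E)) := by
    have hfin := GP.res_finite (E := E)
    exact Finite.one_lt_card
  have h5 := Nat.eq_of_mul_eq_mul_right hF (hcnt.trans (mul_right_comm _ _ _))
  rw [← pow_add, ← pow_mul, ← pow_add] at h5
  have h6 := Nat.pow_right_injective hq h5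
  omega

end Pool.Agent.Work.MP_787500_nt.XS
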