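import Mathlib
import Pool.Agent.Work.MP_787500_nt.XS.PerpD

/-!
# The dimension of the annihilator of a local condition, without lattices

`finrank_perpV`: for every space `L` of continuous cocycles that contains the coboundaries,
`finrank L + finrank (perpSub L) = 3 * n`.
-/

set_option autoImplicit false
set_option linter.unusedSectionVars false

namespace Pool.Agent.Work.MP_787500_nt.XS

open Matrix
open Pool.Agent.Work.MP_787500_nt.GP (A0 OE bil Lat)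
open Pool.Agent.Work.MP_787500_nt.KR (FSys LocD LocRep ZV zV PerpV perpSub)
open Pool.Agent.Work.MP_787500_nt.GP (cupE)
open Pool.Agent.Work.MP_787500_nt.PA (toE)
open Pool.Agent.Work.MP_787500_nt.OP (stdL)
open Pool.Agent.Work.MP_787500_nt.OU (EulF)
open Pool.Agent.Work.MP_787500_nt.OV (DRep exists_crd)

universe v

variable {E : Type v} [NormedField E] [NormedAlgebra ℚ_[2] E] [FiniteDimensional ℚ_[2] E] {n : ℕ}
  {P : Type*} [Group P] {TP : FSys P} {χ : P → ℤ_[2]} {iv : (P → P → A0) → A0}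
  {b : Matrix (Fin n) (Fin n) E} {σ σ' : P → Matrix (Fin n) (Fin n) E}

private theorem lv_fin {M : Type*} [AddCommGroup M] [Module E M] (e : M ≃ₗ[E] M)
    (p q : Submodule E M) (h : ∀ x, x ∈ p ↔ e x ∈ q) :
    Module.finrank E p = Module.finrank E q := by
  have hq : q = p.map (e : M →ₗ[E] M) := by
    ext y
    constructor
    · intro hy
      exact ⟨e.symm y, (h _).2 (by simpa using hy), by simp⟩
    · rintro ⟨x, hx, rfl⟩
      exact (h x).1 hx
  rw [hq]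
  exact (LinearEquiv.finrank_map_eq e p).symm

/-- an invertible matrix as a linear equivalence -/
private noncomputable def lv_eq (B B' : Matrix (Fin n) (Fin n) E) (h : B * B' = 1) (h' : B' * B = 1) :
    (Fin n → E) ≃ₗ[E] (Fin n → E) :=
  LinearEquiv.ofLinearMap (Matrix.toLin' B) (Matrix.toLin' B')
    (by rw [← Matrix.toLin'_mul, h, Matrix.toLin'_one])
    (by rw [← Matrix.toLin'_mul, h', Matrix.toLin'_one])

private theorem lv_eq_apply (B B' : Matrix (Fin n) (Fin n) E) (h : B * B' = 1) (h' : B' * B = 1)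
    (x : Fin n → E) : lv_eq B B' h h' x = B *ᵥ x := by
  show Matrix.toLin' B x = _
  rw [Matrix.toLin'_apply]

private theorem lv_zv {B B' : Matrix (Fin n) (Fin n) E} (h' : B' * B = 1)
    {τ : P → Matrix (Fin n) (Fin n) E} {X : P → Fin n → E} (hX : ZV TP τ X) :
    ZV TP (fun g => B * τ g * B') (fun g => B *ᵥ X g) := by
  refine ⟨?_, fun s t => ?_⟩
  · have h1 := OP.n1_lin (Matrix.toLin' B) hX.1
    simpa only [Matrix.toLin'_apply] using h1
  · show B *ᵥ X (s * t) = B *ᵥ X s + (B * τ s * B') *ᵥ (B *ᵥ X t)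
    rw [hX.2, mulVec_add, mulVec_mulVec, mulVec_mulVec]
    congr 2
    rw [mul_assoc (B * τ s), h', mul_one]

private theorem lv_zv_iff {B B' : Matrix (Fin n) (Fin n) E} (h : B * B' = 1) (h' : B' * B = 1)
    {τ : P → Matrix (Fin n) (Fin n) E} {X : P → Fin n → E} :
    ZV TP τ X ↔ ZV TP (fun g => B * τ g * B') (fun g => B *ᵥ X g) := by
  refine ⟨lv_zv h', fun hX => ?_⟩
  have h1 := lv_zv (B := B') (B' := B) h hX
  have e1 : (fun g => B' *ᵥ (B *ᵥ X g)) = X := by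
    funext g
    rw [mulVec_mulVec, h', one_mulVec]
  have e2 : (fun g => B' * (B * τ g * B') * B) = τ := by
    funext g
    rw [← mul_assoc, ← mul_assoc, h', one_mul, mul_assoc, h', mul_one]
  rw [e1, e2] at h1
  exact h1

private theorem lv_bil {H b : Matrix (Fin n) (Fin n) E} (hH : H.det ≠ 0) (u v : Fin n → E) :
    bil 1 (H⁻¹ *ᵥ u) ((Hᵀ * b) *ᵥ v) = bil b u v := by
  rw [bil, bil, one_mulVec, ← mulVec_mulVec, dotProduct_mulVec, vecMul_transpose, mulVec_mulVec,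
    Matrix.mul_nonsing_inv H (isUnit_iff_ne_zero.2 hH), one_mulVec]

theorem finrank_perpV (hb : b.det ≠ 0) (H : LocD.{v} TP χ iv) (hE : EulF.{v} TP)
    (h : DRep TP χ b σ σ') {L : Submodule E (P → Fin n → E)} (hL : ∀ X ∈ L, ZV TP σ X)
    (hL0 : ∀ v, (fun d => σ d *ᵥ v - v) ∈ L) :
    Module.finrank E L + Module.finrank E (perpSub TP χ b σ' L) = 3 * n := by
  obtain ⟨l, t, M, hM, hl, hr⟩ := exists_crd hb h
  have hMu := isUnit_iff_ne_zero.2 hM
  have hAd : (Mᵀ * b).det ≠ 0 := by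
    rw [Matrix.det_mul, Matrix.det_transpose]
    exact mul_ne_zero hM hb
  have hAu := isUnit_iff_ne_zero.2 hAd
  have a1 : M⁻¹ * M = 1 := Matrix.nonsing_inv_mul M hMu
  have a2 : M * M⁻¹ = 1 := Matrix.mul_nonsing_inv M hMu
  have a3 : (Mᵀ * b) * (Mᵀ * b)⁻¹ = 1 := Matrix.mul_nonsing_inv _ hAu
  have a4 : (Mᵀ * b)⁻¹ * (Mᵀ * b) = 1 := Matrix.nonsing_inv_mul _ hAu
  let e1 : (P → Fin n → E) ≃ₗ[E] (P → Fin n → E) :=
    LinearEquiv.piCongrRight fun _ : P => lv_eq M⁻¹ M a1 a2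
  have he1 : ∀ X, e1 X = fun g => M⁻¹ *ᵥ X g := fun X => by
    funext g
    exact lv_eq_apply _ _ a1 a2 (X g)
  let e2 : (P → Fin n → E) ≃ₗ[E] (P → Fin n → E) :=
    LinearEquiv.piCongrRight fun _ : P => lv_eq (Mᵀ * b) (Mᵀ * b)⁻¹ a3 a4
  have he2 : ∀ X, e2 X = fun g => (Mᵀ * b) *ᵥ X g := fun X => by
    funext g
    exact lv_eq_apply _ _ a3 a4 (X g)
  let L₁ : Submodule E (P → Fin n → E) := L.map (e1 : (P → Fin n → E) →ₗ[E] (P → Fin n → E))
  have hmem : ∀ X, X ∈ L ↔ e1 X ∈ L₁ := fun X => by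
    constructor
    · intro hX
      exact ⟨X, hX, rfl⟩
    · rintro ⟨X', hX', h1⟩
      have h2 : X' = X := e1.injective h1
      rwa [← h2]
  have hL₁ : ∀ X ∈ L₁, ZV TP (fun g => M⁻¹ * σ g * M) X := by
    rintro _ ⟨X, hX, rfl⟩
    have h1 := (lv_zv_iff (TP := TP) a1 a2).1 (hL X hX)
    have h2 : ((e1 : (P → Fin n → E) →ₗ[E] (P → Fin n → E)) X) = fun g => M⁻¹ *ᵥ X g := he1 X
    rw [h2]
    exact h1
  have hL0₁ : ∀ v, (fun d => (M⁻¹ * σ d * M) *ᵥ v - v) ∈ L₁ := by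
    intro v
    have h1 := (hmem _).1 (hL0 (M *ᵥ v))
    rw [he1] at h1
    have h2 : (fun g => M⁻¹ *ᵥ (σ g *ᵥ (M *ᵥ v) - M *ᵥ v)) =
        fun d => (M⁻¹ * σ d * M) *ᵥ v - v := by
      funext g
      rw [mulVec_sub, mulVec_mulVec, mulVec_mulVec, mulVec_mulVec, a1, one_mulVec, mul_assoc]
    rw [h2] at h1
    exact h1
  have hloc : IsLocalRing (OE E) := GP.isLocal E
  have key := finrank_perpSub H hE hl hr hL₁ hL0₁
  have k1 : Module.finrank E L = Module.finrank E L₁ := lv_fin e1 _ _ hmem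
  have hcup : ∀ X Y : P → Fin n → E,
      cupE (fun g => (Mᵀ * b) * σ' g * (Mᵀ * b)⁻¹) 1 (e1 X) (e2 Y) = cupE σ' b X Y := by
    intro X Y
    rw [he1, he2]
    funext g u
    show bil 1 (M⁻¹ *ᵥ X g) (((Mᵀ * b) * σ' g * (Mᵀ * b)⁻¹) *ᵥ ((Mᵀ * b) *ᵥ Y u)) =
      bil b (X g) (σ' g *ᵥ Y u)
    have e3 : ((Mᵀ * b) * σ' g * (Mᵀ * b)⁻¹) *ᵥ ((Mᵀ * b) *ᵥ Y u) =
        (Mᵀ * b) *ᵥ (σ' g *ᵥ Y u) := by
      rw [mulVec_mulVec, mulVec_mulVec]
      congr 1
      rw [mul_assoc ((Mᵀ * b) * σ' g), a4, mul_one]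
    rw [e3, lv_bil hM]
  have k2 : Module.finrank E (perpSub TP χ b σ' L) = Module.finrank E
      (perpSub TP χ 1 (fun g => (Mᵀ * b) * σ' g * (Mᵀ * b)⁻¹) L₁) := by
    refine lv_fin e2 _ _ fun Y => ?_
    constructor
    · rintro ⟨h1, h2⟩
      refine ⟨?_, ?_⟩
      · rw [he2]
        exact (lv_zv_iff (TP := TP) a3 a4).1 h1
      · rintro _ ⟨X, hX, rfl⟩
        have h3 := hcup X Y
        show KP.BE TP χ (cupE (fun g => (Mᵀ * b) * σ' g * (Mᵀ * b)⁻¹) 1 (e1 X) (e2 Y))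
        rw [h3]
        exact h2 X hX
    · rintro ⟨h1, h2⟩
      refine ⟨?_, fun X hX => ?_⟩
      · rw [he2] at h1
        exact (lv_zv_iff (TP := TP) a3 a4).2 h1
      · have h3 := h2 _ ((hmem X).1 hX)
        rw [hcup] at h3
        exact h3
  rw [k1, k2]
  exact key

end Pool.Agent.Work.MP_787500_nt.XS
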