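import Mathlib
import Pool.Agent.Work.MP_787500_nt.XS.FDefs
import Pool.Agent.Work.MP_787500_nt.XS.Gen
import Pool.Agent.Work.MP_787500_nt.XS.PerpV
import Pool.Agent.Work.MP_787500_nt.OV.Split
import Pool.Agent.Work.MP_787500_nt.HP.BK

/-!
# Exact dimensions of Selmer groups

`exactK`: the dimensions `s` of the Selmer group and `l` of the local condition `L` satisfy `s ≤ l`, `s ≤ n + 2 h - l` and
`s = l` modulo 2.
-/

set_option autoImplicit false
set_option linter.unusedSectionVars false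

namespace Pool.Agent.Work.MP_787500_nt.XS

open Matrix NumberField
open Pool.Agent.Work.MP_787500_nt.GP (A0 OE bil Lat inT stabD)
open Pool.Agent.Work.MP_787500_nt.KR (FSys LocD LocRep ZV zV fullD fullK big Opn PerpV perpSub)
open Pool.Agent.Work.MP_787500_nt.PA (toE cyc)
open Pool.Agent.Work.MP_787500_nt.HP (IsQ stb)
open Pool.Agent.Work.MP_787500_nt.KS (iK)
open Pool.Agent.Work.MP_787500_nt.OU (EulF)
open Pool.Agent.Work.MP_787500_nt.OV (drep eul_D)
open Pool.Agent.Work.MP_787500_nt.Parity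

universe u v

section alg

variable {E : Type*} [NormedField E] {A A' : Type*} [AddCommGroup A] [Module E A] [AddCommGroup A']
  [Module E A']

theorem dimModulo_le {M B : Submodule E A} {L B' : Submodule E A'} (f : A →ₗ[E] A') (hB : B ≤ M)
    (hM : FiniteDimensional E M) (hL : FiniteDimensional E L) (hf : ∀ x ∈ M, f x ∈ L)
    (hk : ∀ x ∈ M, f x ∈ B' → x ∈ B) : dimModulo M B ≤ dimModulo L B' := by
  let g : M →ₗ[E] (L ⧸ B'.submoduleOf L) :=
    (B'.submoduleOf L).mkQ.comp ((f.comp M.subtype).codRestrict L fun x => hf x x.2)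
  have h1 := LinearMap.finrank_range_add_finrank_ker g
  have h2 : Module.finrank E (LinearMap.range g) ≤ Module.finrank E (L ⧸ B'.submoduleOf L) :=
    Submodule.finrank_le _
  have h3 : LinearMap.ker g ≤ B.submoduleOf M := by
    intro x hx
    rw [LinearMap.mem_ker] at hx
    have h4 : (⟨f x, hf x x.2⟩ : L) ∈ B'.submoduleOf L := (Submodule.Quotient.mk_eq_zero _).1 hx
    exact hk x x.2 h4
  have h4 := Submodule.finrank_mono h3
  have h5 := Submodule.finrank_quotient_add_finrank (B.submoduleOf M)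
  unfold dimModulo
  omega

/-- a coboundary is orthogonal to every space of cocycles -/
private theorem perp_cob {H : Type*} [Group H] [TopologicalSpace H] {E : Type*} [NormedField E]
    {n : ℕ} {χ : H → E} {A B : H → Matrix (Fin n) (Fin n) E} {b : Matrix (Fin n) (Fin n) E}
    (hdual : ∀ σ, (A σ)ᵀ * b * B σ = χ σ • b) (hB : Continuous B)
    (hBm : ∀ σ τ, B (σ * τ) = B σ * B τ) {L : Submodule E (H → Fin n → E)}
    (hL : ∀ x ∈ L, Parity.IsCocycle A x) {y : H → Fin n → E} {v : Fin n → E}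
    (hy : ∀ σ, y σ = B σ *ᵥ v - v) : IsPerp χ B b (L : Set (H → Fin n → E)) y := by
  have hyc : y = fun σ => B σ *ᵥ v - v := funext hy
  refine ⟨⟨?_, fun σ τ => ?_⟩, fun x hx => ?_⟩
  · rw [hyc]
    exact (Continuous.matrix_mulVec hB continuous_const).sub continuous_const
  · rw [hy, hy, hy, hBm, mulVec_sub, mulVec_mulVec]
    abel
  · obtain ⟨hxc, hxm⟩ := hL x hx
    refine ⟨fun σ => -(x σ ⬝ᵥ (b *ᵥ (B σ *ᵥ v))), ?_, fun σ τ => ?_⟩
    · exact (Continuous.dotProduct hxc (Continuous.matrix_mulVec continuous_const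
        (Continuous.matrix_mulVec hB continuous_const))).neg
    · have h1 : (A σ *ᵥ x τ) ⬝ᵥ (b *ᵥ (B σ *ᵥ (B τ *ᵥ v))) =
          χ σ * (x τ ⬝ᵥ (b *ᵥ (B τ *ᵥ v))) := by
        have h2 : (A σ *ᵥ x τ) ⬝ᵥ (b *ᵥ (B σ *ᵥ (B τ *ᵥ v))) =
            x τ ⬝ᵥ (((A σ)ᵀ * b * B σ) *ᵥ (B τ *ᵥ v)) := by
          rw [← mulVec_mulVec, ← mulVec_mulVec, Matrix.dotProduct_mulVec (x τ) (A σ)ᵀ,
            Matrix.vecMul_transpose]
        rw [h2, hdual, smul_mulVec, dotProduct_smul, smul_eq_mul]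
      have h3 : x (σ * τ) ⬝ᵥ (b *ᵥ (B (σ * τ) *ᵥ v)) =
          x σ ⬝ᵥ (b *ᵥ (B σ *ᵥ (B τ *ᵥ v))) + χ σ * (x τ ⬝ᵥ (b *ᵥ (B τ *ᵥ v))) := by
        rw [hxm, hBm, ← mulVec_mulVec, add_dotProduct, h1]
      show x σ ⬝ᵥ (b *ᵥ (B σ *ᵥ y τ)) = -(x σ ⬝ᵥ (b *ᵥ (B σ *ᵥ v))) +
        χ σ * -(x τ ⬝ᵥ (b *ᵥ (B τ *ᵥ v))) - -(x (σ * τ) ⬝ᵥ (b *ᵥ (B (σ * τ) *ᵥ v)))
      rw [h3, hy τ, mulVec_sub, mulVec_sub, dotProduct_sub]
      ring

end alg

variable {K : Type u} [Field K] [NumberField K] {D : ℕ} {s : K}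
  {c : AlgebraicClosure K ≃+* AlgebraicClosure K} {κ : AbsGal K →* AbsGal K}
  {P : Ideal (𝓞 (AlgebraicClosure K))}
  {E : Type v} [NormedField E] [NormedAlgebra ℚ_[2] E] [FiniteDimensional ℚ_[2] E] {n : ℕ}
  {ρ : AbsGal K →* Matrix (Fin n) (Fin n) E} {b : Matrix (Fin n) (Fin n) E}

/-- the conjugate prime -/
private noncomputable def cj (c : AlgebraicClosure K ≃+* AlgebraicClosure K)
    (Q : Ideal (𝓞 (AlgebraicClosure K))) : Ideal (𝓞 (AlgebraicClosure K)) :=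
  Q.comap (RingOfIntegers.mapRingEquiv c : 𝓞 (AlgebraicClosure K) →+* 𝓞 (AlgebraicClosure K))

private theorem cj_stab (hc : ∀ x, c (c x) = x)
    (hκ : ∀ (σ : AbsGal K) (x : AlgebraicClosure K), κ σ x = c (σ (c x)))
    {Q : Ideal (𝓞 (AlgebraicClosure K))} {d : AbsGal K} (hd : d ∈ stabD Q) :
    κ d ∈ stabD (cj c Q) := by
  intro x
  let C : 𝓞 (AlgebraicClosure K) ≃+* 𝓞 (AlgebraicClosure K) := RingOfIntegers.mapRingEquiv c
  have h1 : C (κ d • x) = d • C x := by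
    apply RingOfIntegers.ext
    show c (κ d _) = d (c _)
    rw [hκ, hc]
    rfl
  show C x ∈ Q ↔ C (κ d • x) ∈ Q
  rw [h1]
  exact hd _

private theorem cj_cj (hc : ∀ x, c (c x) = x) (Q : Ideal (𝓞 (AlgebraicClosure K))) :
    cj c (cj c Q) = Q := by
  ext x
  let C : 𝓞 (AlgebraicClosure K) ≃+* 𝓞 (AlgebraicClosure K) := RingOfIntegers.mapRingEquiv c
  have h1 : C (C x) = x := by
    apply RingOfIntegers.ext
    exact hc _
  show C (C x) ∈ Q ↔ x ∈ Q
  rw [h1]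

/-- the conjugate prime has the same property -/
private theorem noSplit_cj (hc : ∀ x, c (c x) = x)
    (hκ : ∀ (σ : AbsGal K) (x : AlgebraicClosure K), κ σ x = c (σ (c x))) (hκc : Continuous κ)
    (hκκ : ∀ g, κ (κ g) = g) (hF : NoSplit (inT K ∅) (stabD P)) :
    NoSplit (inT K ∅) (stabD (cj c P)) := by
  intro U hUo hU2 hI hDU
  refine hF (U.comap κ) (hUo.preimage hκc) ?_ ?_ ?_
  · rw [Subgroup.index_comap_of_surjective _ (fun g => ⟨κ g, hκκ g⟩)]
    exact hU2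
  · rintro σ ⟨Q, hQ, hQ2, -, hσ⟩
    obtain ⟨Q', hQ', hQ2', h⟩ := HP.kap_inertia hc hκ Q hQ hQ2
    exact hI _ ⟨Q', hQ', hQ2', fun l hl => absurd hl (Finset.notMem_empty l), h σ hσ⟩
  · intro d hd
    exact hDU (cj_stab hc hκ hd)

theorem exactK (hK : IsQ K D s) (hF : NoSplit (inT K ∅) (stabD P)) (hc : PA.IsConj s c)
    (hκ : ∀ (σ : AbsGal K) (x : AlgebraicClosure K), κ σ x = c (σ (c x))) (hP : P.IsPrime)
    (hP2 : (2 : 𝓞 (AlgebraicClosure K)) ∈ P) (hb : b.det ≠ 0)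
    (hρ : IsDualRep (inT K ∅) (cyclo E) κ ρ b) (hpro : ProTwoOn ⊤ ρ) :
    ExactBK (inertiaOffTwo K) (cyclo E) κ ρ b (stabD P) := by
  intro L hL
  have hκκ : ∀ g, κ (κ g) = g := GA.kap_kap hc hκ
  have hodd : ∀ g : AbsGal K, (2 : ℤ_[2]) ∣ cyc g - 1 := PA.isChar_cyc.odd
  have hκc : Continuous κ := PA.kappa_continuous hc.sq hκ
  have hpro' : ∀ g, Filter.Tendsto (fun k : ℕ => ρ (g ^ 2 ^ k)) Filter.atTop (nhds 1) :=
    fun g => hpro g trivial
  -- the parity theorem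
  obtain ⟨h1, h2, h3, h4, -⟩ := HP.bk_final K hK.deg D hK.sqf hK.mod s hK.sq P hP hP2 c hc.sq hc.neg κ
    hκ ∅ (fun l hl => absurd hl (Finset.notMem_empty l)) E n ρ b hb
    ⟨hρ.cont, hpro', hρ.unram, hρ.symm, hρ.dual⟩ L hL
  -- vanishing on the inertia groups
  have hinT : ∀ Q : Ideal (𝓞 (AlgebraicClosure K)), Q.IsPrime →
      (2 : 𝓞 (AlgebraicClosure K)) ∉ Q → ∀ σ ∈ Q.inertia (AbsGal K), σ ∈ inT K ∅ :=
    fun Q hQ hQ2 σ hσ => ⟨Q, hQ, hQ2, fun l hl => absurd hl (Finset.notMem_empty l), hσ⟩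
  have hvan : ∀ x : AbsGal K → Fin n → E,
      (∀ I ∈ inertiaOffTwo K, ∃ v : Fin n → E, ∀ σ ∈ I, x σ = ρ σ *ᵥ v - v) →
      ∀ σ ∈ inT K ∅, x σ = 0 := by
    rintro x hx σ ⟨Q, hQ, hQ2, hQT, hσ⟩
    obtain ⟨v, hv⟩ := hx _ ⟨Q, hQ, hQ2, rfl⟩
    rw [hv σ hσ, hρ.unram σ ⟨Q, hQ, hQ2, hQT, hσ⟩, one_mulVec, sub_self]
  have hfix : fixedBy (fun σ : stabD P => ρ σ) = fixedBy (fun σ : AbsGal K => ρ σ) := by
    ext y
    constructor
    · intro hy g
      have h5 := cob_of_stab hF hρ.cont hpro' hρ.unram (x := 0) (IsCocycle.zero _)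
        (fun _ _ => rfl) (y := y) (fun d hd => by
          have h6 : ρ d *ᵥ y = y := hy ⟨d, hd⟩
          rw [h6, sub_self]
          rfl) g
      exact sub_eq_zero.1 h5.symm
    · intro hy σ
      exact hy σ
  -- the conjugate prime
  have hF' : NoSplit (inT K ∅) (stabD (cj c P)) := noSplit_cj hc.sq hκ hκc hκκ hF
  have hst' : ∀ d ∈ stabD (cj c P), κ d ∈ stabD P := by
    intro d hd
    have h5 := cj_stab hc.sq hκ hd
    rwa [cj_cj hc.sq] at h5
  have hfix' : fixedBy (fun σ : stabD P => ρ (κ σ)) = fixedBy (fun σ : AbsGal K => ρ σ) := by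
    ext y
    constructor
    · intro hy g
      have h5 := cob_of_stab hF' hρ.cont hpro' hρ.unram (x := 0) (IsCocycle.zero _)
        (fun _ _ => rfl) (y := y) (fun d hd => by
          have h6 : ρ (κ (κ d)) *ᵥ y = y := hy ⟨κ d, hst' d hd⟩
          rw [hκκ] at h6
          rw [h6, sub_self]
          rfl) g
      exact sub_eq_zero.1 h5.symm
    · intro hy σ
      exact hy _
  -- the first bound
  have hs1 : dimModulo (selmerBK (inertiaOffTwo K) (cyclo E) κ ρ b (stabD P) L) (coboundaries ρ) ≤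
      dimModulo L (coboundaries (fun σ : stabD P => ρ σ)) := by
    refine dimModulo_le (LinearMap.funLeft E (Fin n → E) (fun d : stabD P => (d : AbsGal K))) h3 h2 h1
      (fun x hx => hx.2.2.1) ?_
    rintro x hx ⟨v, hv⟩
    refine ⟨v, fun g => ?_⟩
    exact cob_of_stab hF hρ.cont hpro' hρ.unram hx.1 (hvan x hx.2.1)
      (fun d hd => hv ⟨d, hd⟩) g
  -- the local data
  obtain ⟨N₀, hNn, hNF, hNo, hκN, hNI, hproN⟩ := QF.exists_n0 (KR.isFull_K ∅) (χ := cyc)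
    PA.isChar_cyc.mul PA.isChar_cyc.one hodd hκκ hb hρ
  have hρ₀ : Gn.ConjDual 2 N₀ (inT K ∅) (cyclo E) κ ρ b :=
    ⟨hρ.cont, hproN, hρ.unram, hρ.symm, hρ.dual⟩
  have hcs : CompactSpace (stabD P) := isCompact_iff_compactSpace.1 (GP.stabD_closed P).isCompact
  have hA : KR.ProRep (N₀.subgroupOf (stabD P)) (fun d : stabD P => ρ d) := LB.proRep_rho hρ₀ _
  have hB : KR.ProRep (N₀.subgroupOf (stabD P)) (fun d : stabD P => ρ (κ d)) :=
    LB.proRep_kap hκc hκN hρ₀ _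
  have hNn' : (N₀.subgroupOf (stabD P)).Normal := inferInstance
  have hNo' : IsOpen ((N₀.subgroupOf (stabD P) : Subgroup (stabD P)) : Set (stabD P)) :=
    hNo.preimage continuous_subtype_val
  have hbase : Gn.Base (N₀.subgroupOf (stabD P)) (∅ : Set (stabD P)) := KR.base_of hNn' hNo'
  have hS := KR.isBig_D N₀ (GP.stabD_closed P)
  have hd := drep (P := P) hκc hNn hNo hκN hρ₀
  obtain ⟨inv, -, hLoc⟩ := SH.exists_inv.{u, v} hK hc hκ hP hP2
  have hOpn : Opn (fullD (stabD P)) (N₀.subgroupOf (stabD P)) := by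
    have hf : Finite (stabD P ⧸ N₀.subgroupOf (stabD P)) :=
      Subgroup.quotient_finite_of_isOpen _ hNo'
    exact ⟨_, ⟨hNn', Subgroup.index_ne_zero_of_finite, N₀, hNo, le_rfl⟩, le_rfl⟩
  have hLD := hLoc _ hNn' hOpn
  have hne : ∃ x, c x ≠ x := QX.ne_c (QX.two_I (QX.isI_of hK) hc hκ)
  have hE : EulF.{v} (big (fullD (stabD P)) (N₀.subgroupOf (stabD P))) :=
    eul_D hc.sq hne hP hP2 (QX.stb_le2 (QX.isI_of hK) hK.mod hP hP2) N₀
  have hcoc : ∀ X : stabD P → Fin n → E, Parity.IsCocycle (fun d : stabD P => ρ d) X ↔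
      ZV (big (fullD (stabD P)) (N₀.subgroupOf (stabD P))) (fun d : stabD P => ρ d) X := fun X =>
    ⟨fun h => (KR.big_coc hbase hS hA (fun _ h => h.elim)).1 ⟨h, fun _ h => h.elim⟩,
      fun h => ((KR.big_coc hbase hS hA (fun _ h => h.elim)).2 h).1⟩
  have hcoc' : ∀ X : stabD P → Fin n → E, Parity.IsCocycle (fun d : stabD P => ρ (κ d)) X ↔
      ZV (big (fullD (stabD P)) (N₀.subgroupOf (stabD P))) (fun d : stabD P => ρ (κ d)) X :=
    fun X => ⟨fun h => (KR.big_coc hbase hS hB (fun _ h => h.elim)).1 ⟨h, fun _ h => h.elim⟩,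
      fun h => ((KR.big_coc hbase hS hB (fun _ h => h.elim)).2 h).1⟩
  have hLz : ∀ X ∈ L, Parity.IsCocycle (fun d : stabD P => ρ d) X := fun X hX => hL.2 hX
  obtain ⟨L', hL'⟩ : ∃ L', L' = perpSub (big (fullD (stabD P)) (N₀.subgroupOf (stabD P)))
    (fun d : stabD P => cyc (d : AbsGal K)) b (fun d : stabD P => ρ (κ d)) L := ⟨_, rfl⟩
  have hperp : ∀ y : stabD P → Fin n → E,
      IsPerp (fun d : stabD P => cyclo E (d : AbsGal K)) (fun d => ρ (κ d)) b
        (L : Set (stabD P → Fin n → E)) y ↔ y ∈ L' := by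
    intro y
    rw [hL']
    exact KR.big_perp (HP.basis_sub (HP.basis_K K)) hNn' hNo' hS hLD.char hA hB hLz
  have hcob : ∀ X ∈ coboundaries (fun σ : stabD P => ρ σ),
      Parity.IsCocycle (fun d : stabD P => ρ d) X := fun X hX => hL.2 (hL.1 hX)
  have hnum := finrank_perpV hb hLD hE hd (L := L) (fun X hX => (hcoc X).1 (hLz X hX))
    (fun v => hL.1 ⟨v, fun _ => rfl⟩)
  rw [← hL'] at hnum
  have hfL' : FiniteDimensional E L' := by
    have h5 : FiniteDimensional E (zV (big (fullD (stabD P)) (N₀.subgroupOf (stabD P)))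
        (fun d : stabD P => ρ (κ d))) := KR.zV_fd hLD.gens hd.one' hd.mul'
    rw [hL']
    exact Submodule.finiteDimensional_of_le (S₂ := zV (big (fullD (stabD P))
      (N₀.subgroupOf (stabD P))) (fun d : stabD P => ρ (κ d))) (fun X hX => hX.1)
  -- the second bound
  have hs2 : dimModulo (selmerBK (inertiaOffTwo K) (cyclo E) κ ρ b (stabD P) L) (coboundaries ρ) ≤
      dimModulo L' (coboundaries (fun σ : stabD P => ρ (κ σ))) := by
    refine dimModulo_le (LinearMap.funLeft E (Fin n → E) (fun d : stabD P => κ (d : AbsGal K))) h3 h2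
      hfL' (fun x hx => (hperp _).1 hx.2.2.2) ?_
    rintro x hx ⟨v, hv⟩
    refine ⟨v, fun g => ?_⟩
    refine cob_of_stab hF' hρ.cont hpro' hρ.unram hx.1 (hvan x hx.2.1) (fun d hd => ?_) g
    have h5 := hv ⟨κ d, hst' d hd⟩
    simp only [LinearMap.funLeft_apply, hκκ] at h5
    exact h5
  have hB' : coboundaries (fun σ : stabD P => ρ (κ σ)) ≤ L' := by
    rintro X ⟨v, hv⟩
    exact (hperp X).1 (perp_cob (A := fun d : stabD P => ρ d) (fun d => hρ.dual d) hB.cont hB.mul hLz hv)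
  have g1 := GP.dimModulo_add hL.1 h1
  have g2 := GP.dimModulo_add hB' hfL'
  have g3 := GP.finrank_cob (fun σ : stabD P => ρ σ)
  have g4 := GP.finrank_cob (fun σ : stabD P => ρ (κ σ))
  rw [hfix] at g3 h4
  rw [hfix'] at g4
  refine ⟨h1, h2, h3, ?_, ?_⟩
  · unfold Nat.ModEq at h4
    refine ⟨(dimModulo L (coboundaries (fun σ : stabD P => ρ σ)) -
      dimModulo (selmerBK (inertiaOffTwo K) (cyclo E) κ ρ b (stabD P) L) (coboundaries ρ)) / 2, ?_⟩
    omega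
  · omega

theorem exact_final (K : Type u) [Field K] [NumberField K] (hK : Module.finrank ℚ K = 2) (D : ℕ)
    (hD : Squarefree D) (hD8 : D % 8 = 7) (s : K) (hs : s ^ 2 = -(D : K))
    (P : Ideal (𝓞 (AlgebraicClosure K))) (hP : P.IsPrime)
    (hP2 : (2 : 𝓞 (AlgebraicClosure K)) ∈ P)
    (hS : (D.Prime ∧ D % 16 = 7) ∨ NoSplit (inT K ∅) (stabD P))
    (c : AlgebraicClosure K ≃+* AlgebraicClosure K) (hc : ∀ x, c (c x) = x)
    (hcs : c (algebraMap K (AlgebraicClosure K) s) = -algebraMap K (AlgebraicClosure K) s)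
    (κ : AbsGal K → AbsGal K)
    (hκ : ∀ (σ : AbsGal K) (x : AlgebraicClosure K), κ σ x = c (σ (c x)))
    (E : Type v) [NormedField E] [NormedAlgebra ℚ_[2] E] [FiniteDimensional ℚ_[2] E] (n : ℕ)
    (ρ : AbsGal K →* Matrix (Fin n) (Fin n) E) (b : Matrix (Fin n) (Fin n) E) (hb : b.det ≠ 0)
    (hρ : IsDualRep (inT K ∅) (cyclo E) κ ρ b) (hN : ProTwoOn ⊤ ρ) :
    ExactBK (inertiaOffTwo K) (cyclo E) κ ρ b (stabD P) := by
  let κ' : AbsGal K →* AbsGal K := MonoidHom.mk' κ fun g h => by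
    ext x
    rw [hκ, AlgEquiv.mul_apply, AlgEquiv.mul_apply, hκ, hκ, hc]
  have hF : NoSplit (inT K ∅) (stabD P) := by
    rcases hS with h | h
    · exact noSplit_of hK hs h.1 h.2 hP hP2
    · exact h
  exact exactK (κ := κ') ⟨hK, hs, hD, hD8⟩ hF ⟨hc, hcs⟩ hκ hP hP2 hb hρ hN

end Pool.Agent.Work.MP_787500_nt.XS
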